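import Mathlib

set_option autoImplicit false

/-!
# The jigsaw

For sets `X Y ⊆ ℤ` we form the set of integers `m = 9k + r`, `0 ≤ r < 9`, with
`r ∈ {0,1,2,5}` and `k ∈ X`, or `r ∈ {3,4,6,7,8}` and `k ∈ Y`.  A tiling complement of this set which
contains `0` consists of multiples of `9`, and (after division by `9`) it is a tiling complement of
both `X` and `Y`.
-/

namespace Pool.Agent.H35.WT

/-- the glued set -/
def inB (X Y : ℤ → Prop) (m : ℤ) : Prop :=
  ((m % 9 = 0 ∨ m % 9 = 1 ∨ m % 9 = 2 ∨ m % 9 = 5) ∧ X (m / 9)) ∨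
  ((m % 9 = 3 ∨ m % 9 = 4 ∨ m % 9 = 6 ∨ m % 9 = 7 ∨ m % 9 = 8) ∧ Y (m / 9))

theorem inB_X {X Y : ℤ → Prop} {m k r : ℤ} (hm : m = 9 * k + r)
    (hr : r = 0 ∨ r = 1 ∨ r = 2 ∨ r = 5) : inB X Y m ↔ X k := by
  have h1 : m % 9 = r := by omega
  have h2 : m / 9 = k := by omega
  unfold inB
  rw [h1, h2]
  constructor
  · rintro (h | h)
    · exact h.2
    · omega
  · intro h
    exact Or.inl ⟨hr, h⟩

theorem inB_Y {X Y : ℤ → Prop} {m k r : ℤ} (hm : m = 9 * k + r)
    (hr : r = 3 ∨ r = 4 ∨ r = 6 ∨ r = 7 ∨ r = 8) : inB X Y m ↔ Y k := by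
  have h1 : m % 9 = r := by omega
  have h2 : m / 9 = k := by omega
  unfold inB
  rw [h1, h2]
  constructor
  · rintro (h | h)
    · omega
    · exact h.2
  · intro h
    exact Or.inr ⟨hr, h⟩

/-- the hole of an `X`-block at the positions `3,4` is filled by a `Y`-block. -/
theorem claim1 {X Y T : ℤ → Prop}
    (hcov : ∀ m, ∃ t, T t ∧ inB X Y (m - t))
    (huniq : ∀ m t t', T t → T t' → inB X Y (m - t) → inB X Y (m - t') → t = t')
    {t k : ℤ} (ht : T t) (hk : X k) : ∃ t' k', T t' ∧ Y k' ∧ t + 9 * k = t' + 9 * k' := by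
  by_cases hY : Y k
  · exact ⟨t, k, ht, hY, rfl⟩
  obtain ⟨t', ht', hb⟩ := hcov (t + 9 * k + 3)
  -- basic exclusion principle
  have excl : ∀ d : ℤ, inB X Y (t + 9 * k + 3 + d - t') → inB X Y (t + 9 * k + 3 + d - t) → False := by
    intro d h1 h2
    have e := huniq _ _ _ ht' ht h1 h2
    rw [e] at hb
    rw [inB_Y (k := k) (r := 3) (by ring) (by simp)] at hb
    exact hY hb
  have x1 : ¬ inB X Y (t + 9 * k + 3 - 1 - t') := by
    intro h
    refine excl (-1) (by convert h using 1; ring) ?_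
    rw [inB_X (k := k) (r := 2) (by ring) (by simp)]
    exact hk
  have x2 : ¬ inB X Y (t + 9 * k + 3 + 2 - t') := by
    intro h
    refine excl 2 h ?_
    rw [inB_X (k := k) (r := 5) (by ring) (by simp)]
    exact hk
  have x3 : ¬ inB X Y (t + 9 * k + 3 - 3 - t') := by
    intro h
    refine excl (-3) (by convert h using 1; ring) ?_
    rw [inB_X (k := k) (r := 0) (by ring) (by simp)]
    exact hk
  obtain ⟨k', r', hr0, hr9, hkr⟩ : ∃ k' r' : ℤ, 0 ≤ r' ∧ r' < 9 ∧ t + 9 * k + 3 - t' = 9 * k' + r' :=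
    ⟨(t + 9 * k + 3 - t') / 9, (t + 9 * k + 3 - t') % 9, by omega, by omega, by omega⟩
  have hr : r' = 0 ∨ r' = 1 ∨ r' = 2 ∨ r' = 3 ∨ r' = 4 ∨ r' = 5 ∨ r' = 6 ∨ r' = 7 ∨ r' = 8 := by
    omega
  rcases hr with rfl | rfl | rfl | rfl | rfl | rfl | rfl | rfl | rfl
  · exfalso
    rw [inB_X hkr (by simp)] at hb
    exact x2 ((inB_X (k := k') (r := 2) (by omega) (by simp)).2 hb)
  · exfalso
    rw [inB_X hkr (by simp)] at hb
    exact x1 ((inB_X (k := k') (r := 0) (by omega) (by simp)).2 hb)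
  · exfalso
    rw [inB_X hkr (by simp)] at hb
    exact x1 ((inB_X (k := k') (r := 1) (by omega) (by simp)).2 hb)
  · rw [inB_Y hkr (by simp)] at hb
    exact ⟨t', k', ht', hb, by omega⟩
  · exfalso
    rw [inB_Y hkr (by simp)] at hb
    exact x1 ((inB_Y (k := k') (r := 3) (by omega) (by simp)).2 hb)
  · exfalso
    rw [inB_X hkr (by simp)] at hb
    exact x3 ((inB_X (k := k') (r := 2) (by omega) (by simp)).2 hb)
  · exfalso
    rw [inB_Y hkr (by simp)] at hb
    exact x2 ((inB_Y (k := k') (r := 8) (by omega) (by simp)).2 hb)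
  · exfalso
    rw [inB_Y hkr (by simp)] at hb
    exact x1 ((inB_Y (k := k') (r := 6) (by omega) (by simp)).2 hb)
  · exfalso
    rw [inB_Y hkr (by simp)] at hb
    exact x1 ((inB_Y (k := k') (r := 7) (by omega) (by simp)).2 hb)

/-- the hole of a `Y`-block at the position `5` is filled by an `X`-block. -/
theorem claim2 {X Y T : ℤ → Prop}
    (hcov : ∀ m, ∃ t, T t ∧ inB X Y (m - t))
    (huniq : ∀ m t t', T t → T t' → inB X Y (m - t) → inB X Y (m - t') → t = t')
    {t k : ℤ} (ht : T t) (hk : Y k) : ∃ t' k', T t' ∧ X k' ∧ t + 9 * k = t' + 9 * k' := by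
  by_cases hX : X k
  · exact ⟨t, k, ht, hX, rfl⟩
  obtain ⟨t', ht', hb⟩ := hcov (t + 9 * k + 5)
  have excl : ∀ d : ℤ, inB X Y (t + 9 * k + 5 + d - t') → inB X Y (t + 9 * k + 5 + d - t) → False := by
    intro d h1 h2
    have e := huniq _ _ _ ht' ht h1 h2
    rw [e] at hb
    rw [inB_X (k := k) (r := 5) (by ring) (by simp)] at hb
    exact hX hb
  have x1 : ¬ inB X Y (t + 9 * k + 5 - 1 - t') := by
    intro h
    refine excl (-1) (by convert h using 1; ring) ?_
    rw [inB_Y (k := k) (r := 4) (by ring) (by simp)]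
    exact hk
  have x2 : ¬ inB X Y (t + 9 * k + 5 + 1 - t') := by
    intro h
    refine excl 1 h ?_
    rw [inB_Y (k := k) (r := 6) (by ring) (by simp)]
    exact hk
  obtain ⟨k', r', hr0, hr9, hkr⟩ : ∃ k' r' : ℤ, 0 ≤ r' ∧ r' < 9 ∧ t + 9 * k + 5 - t' = 9 * k' + r' :=
    ⟨(t + 9 * k + 5 - t') / 9, (t + 9 * k + 5 - t') % 9, by omega, by omega, by omega⟩
  have hr : r' = 0 ∨ r' = 1 ∨ r' = 2 ∨ r' = 3 ∨ r' = 4 ∨ r' = 5 ∨ r' = 6 ∨ r' = 7 ∨ r' = 8 := by
    omega
  rcases hr with rfl | rfl | rfl | rfl | rfl | rfl | rfl | rfl | rfl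
  · exfalso
    rw [inB_X hkr (by simp)] at hb
    exact x2 ((inB_X (k := k') (r := 1) (by omega) (by simp)).2 hb)
  · exfalso
    rw [inB_X hkr (by simp)] at hb
    exact x1 ((inB_X (k := k') (r := 0) (by omega) (by simp)).2 hb)
  · exfalso
    rw [inB_X hkr (by simp)] at hb
    exact x1 ((inB_X (k := k') (r := 1) (by omega) (by simp)).2 hb)
  · exfalso
    rw [inB_Y hkr (by simp)] at hb
    exact x2 ((inB_Y (k := k') (r := 4) (by omega) (by simp)).2 hb)
  · exfalso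
    rw [inB_Y hkr (by simp)] at hb
    exact x1 ((inB_Y (k := k') (r := 3) (by omega) (by simp)).2 hb)
  · rw [inB_X hkr (by simp)] at hb
    exact ⟨t', k', ht', hb, by omega⟩
  · exfalso
    rw [inB_Y hkr (by simp)] at hb
    exact x2 ((inB_Y (k := k') (r := 7) (by omega) (by simp)).2 hb)
  · exfalso
    rw [inB_Y hkr (by simp)] at hb
    exact x1 ((inB_Y (k := k') (r := 6) (by omega) (by simp)).2 hb)
  · exfalso
    rw [inB_Y hkr (by simp)] at hb
    exact x1 ((inB_Y (k := k') (r := 7) (by omega) (by simp)).2 hb)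

/-- The jigsaw lemma. -/
theorem glue {X Y T : ℤ → Prop} (h0 : T 0) (hX0 : X 0)
    (hcov : ∀ m, ∃ t, T t ∧ inB X Y (m - t))
    (huniq : ∀ m t t', T t → T t' → inB X Y (m - t) → inB X Y (m - t') → t = t') :
    (∀ n, ∃! k, X k ∧ T (9 * (n - k))) ∧ (∀ n, ∃! k, Y k ∧ T (9 * (n - k))) := by
  -- block positions
  set V : ℤ → Prop := fun v => ∃ t k, T t ∧ X k ∧ v = t + 9 * k with hV
  have hVY : ∀ v, V v → ∃ t k, T t ∧ Y k ∧ v = t + 9 * k := by
    rintro v ⟨t, k, ht, hk, rfl⟩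
    exact claim1 hcov huniq ht hk
  have hYV : ∀ t k, T t → Y k → V (t + 9 * k) := by
    intro t k ht hk
    obtain ⟨t', k', ht', hk', e⟩ := claim2 hcov huniq ht hk
    exact ⟨t', k', ht', hk', e⟩
  -- each cell of a block is covered with the right residue
  have hcell : ∀ v, V v → ∀ d, 0 ≤ d → d < 9 → ∃ t, T t ∧ inB X Y (v + d - t) ∧ (v + d - t) % 9 = d := by
    intro v hv d hd0 hd9
    have hd : (d = 0 ∨ d = 1 ∨ d = 2 ∨ d = 5) ∨ (d = 3 ∨ d = 4 ∨ d = 6 ∨ d = 7 ∨ d = 8) := by omega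
    rcases hd with hd | hd
    · obtain ⟨t, k, ht, hk, rfl⟩ := hv
      exact ⟨t, ht, (inB_X (k := k) (r := d) (by ring) hd).2 hk, by omega⟩
    · obtain ⟨t, k, ht, hk, rfl⟩ := hVY v hv
      exact ⟨t, ht, (inB_Y (k := k) (r := d) (by ring) hd).2 hk, by omega⟩
  have hsep : ∀ v d, V v → V (v + d) → 0 < d → d < 9 → False := by
    intro v d hv hv' hd0 hd9
    obtain ⟨t, ht, hb, hr⟩ := hcell v hv d hd0.le hd9
    obtain ⟨t', ht', hb', hr'⟩ := hcell (v + d) hv' 0 le_rfl (by norm_num)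
    rw [add_zero] at hb' hr'
    have e := huniq _ _ _ ht ht' hb hb'
    subst e
    omega
  have hcover : ∀ m, ∃ v, V v ∧ v ≤ m ∧ m < v + 9 := by
    intro m
    obtain ⟨t, ht, hb⟩ := hcov m
    obtain ⟨k, r, hr0, hr9, hkr⟩ : ∃ k r : ℤ, 0 ≤ r ∧ r < 9 ∧ m - t = 9 * k + r :=
      ⟨(m - t) / 9, (m - t) % 9, by omega, by omega, by omega⟩
    refine ⟨t + 9 * k, ?_, by omega, by omega⟩
    have hd : (r = 0 ∨ r = 1 ∨ r = 2 ∨ r = 5) ∨ (r = 3 ∨ r = 4 ∨ r = 6 ∨ r = 7 ∨ r = 8) := by omega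
    rcases hd with hd | hd
    · rw [inB_X hkr hd] at hb
      exact ⟨t, k, ht, hb, rfl⟩
    · rw [inB_Y hkr hd] at hb
      exact hYV t k ht hb
  have hV0 : V 0 := ⟨0, 0, h0, hX0, by norm_num⟩
  have hsucc : ∀ v, V v → V (v + 9) := by
    intro v hv
    obtain ⟨v', hv', h1, h2⟩ := hcover (v + 9)
    by_cases h : v' = v + 9
    · rwa [← h]
    · exfalso
      exact hsep v (v' - v) hv (by convert hv' using 1; ring) (by omega) (by omega)
  have hpred : ∀ v, V v → V (v - 9) := by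
    intro v hv
    obtain ⟨v', hv', h1, h2⟩ := hcover (v - 1)
    by_cases h : v' = v - 9
    · rwa [← h]
    · exfalso
      exact hsep v' (v - v') hv' (by convert hv using 1; ring) (by omega) (by omega)
  have hV9 : ∀ q : ℤ, V (9 * q) := by
    intro q
    induction q using Int.induction_on with
    | zero => simpa using hV0
    | succ i ih =>
      have := hsucc _ ih
      convert this using 1
      ring
    | pred i ih =>
      have := hpred _ ih
      convert this using 1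
      ring
  have hdvd : ∀ v, V v → v % 9 = 0 := by
    intro v hv
    by_contra hne
    have e : v = 9 * (v / 9) + v % 9 := by omega
    refine hsep (9 * (v / 9)) (v % 9) (hV9 _) ?_ (by omega) (by omega)
    rwa [← e]
  constructor
  · intro n
    obtain ⟨t, k, ht, hk, e⟩ := hV9 n
    refine ⟨k, ⟨hk, ?_⟩, ?_⟩
    · have : 9 * (n - k) = t := by linarith
      rwa [this]
    · rintro k' ⟨hk', ht'⟩
      have e2 := huniq (9 * n) t (9 * (n - k')) ht ht'
        ((inB_X (k := k) (r := 0) (by linarith) (by simp)).2 hk)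
        ((inB_X (k := k') (r := 0) (by ring) (by simp)).2 hk')
      linarith
  · intro n
    obtain ⟨t, k, ht, hk, e⟩ := hVY _ (hV9 n)
    refine ⟨k, ⟨hk, ?_⟩, ?_⟩
    · have : 9 * (n - k) = t := by linarith
      rwa [this]
    · rintro k' ⟨hk', ht'⟩
      have e2 := huniq (9 * n + 3) t (9 * (n - k')) ht ht'
        ((inB_Y (k := k) (r := 3) (by linarith) (by simp)).2 hk)
        ((inB_Y (k := k') (r := 3) (by ring) (by simp)).2 hk')
      linarith

end Pool.Agent.H35.WT
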