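import Mathlib

set_option autoImplicit false

/-!
# The integer part: two tiles of `ℤ` without a common tiling complement

`A1 = {0,225} + {0,100,200} + {0,180,360,540,720}`,
`A2 = {0,450} + {0,300,600} + {0,36,72,108,144}`.
-/

namespace Pool.Agent.H35.WT

/-- `{0,225} + {0,100,200} + {0,180,360,540,720}`. -/
def A1 : List ℕ :=
  [0, 100, 180, 200, 225, 280, 325, 360, 380, 405, 425, 460, 505, 540, 560, 585, 605, 640, 685,
   720, 740, 765, 785, 820, 865, 920, 945, 965, 1045, 1145]

/-- `{0,450} + {0,300,600} + {0,36,72,108,144}`. -/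
def A2 : List ℕ :=
  [0, 36, 72, 108, 144, 300, 336, 372, 408, 444, 450, 486, 522, 558, 594, 600, 636, 672, 708,
   744, 750, 786, 822, 858, 894, 1050, 1086, 1122, 1158, 1194]

/-- convolution of a function on `ℤ` with the counting measure of a list of naturals. -/
def conv (A : List ℕ) (f : ℤ → ℤ) (n : ℤ) : ℤ := (A.map (fun a : ℕ => f (n - (a : ℤ)))).sum

/-- A `{0,1}`-valued function whose convolution with `A1` is `1` is `900`-periodic. -/
theorem periodic_of_conv (f : ℤ → ℤ) (h01 : ∀ n, f n = 0 ∨ f n = 1)
    (h1 : ∀ n, conv A1 f n = 1) : ∀ n, f (n - 900) = f n := by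
  -- G n = f n + f (n-180) + ... + f (n-720)
  set G : ℤ → ℤ := fun n => f n + f (n - 180) + f (n - 360) + f (n - 540) + f (n - 720) with hG
  have hF : ∀ n, (G n + G (n - 100) + G (n - 200)) +
      (G (n - 225) + G (n - 225 - 100) + G (n - 225 - 200)) = 1 := by
    intro n
    have := h1 n
    simp only [conv, A1, List.map_cons, List.map_nil, List.sum_cons, List.sum_nil] at this
    push_cast at this
    rw [← this]
    simp only [hG]
    ring_nf
  set F : ℤ → ℤ := fun n => G n + G (n - 100) + G (n - 200) with hFd
  have hF2 : ∀ n, F (n - 450) = F n := by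
    intro n
    have e1 := hF n
    have e2 := hF (n - 225)
    simp only [hFd]
    have e3 : n - 225 - 225 = n - 450 := by ring
    rw [e3] at e2
    linarith
  set g : ℤ → ℤ := fun n => G n - G (n - 450) with hgd
  have hg : ∀ n, g n + g (n - 100) + g (n - 200) = 0 := by
    intro n
    have e1 := hF2 n
    simp only [hFd] at e1
    simp only [hgd]
    have e3 : n - 100 - 450 = n - 450 - 100 := by ring
    have e4 : n - 200 - 450 = n - 450 - 200 := by ring
    rw [e3, e4]
    linarith
  have hg2 : ∀ n, g (n - 300) = g n := by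
    intro n
    have e1 := hg n
    have e2 := hg (n - 100)
    have e3 : n - 100 - 100 = n - 200 := by ring
    have e4 : n - 100 - 200 = n - 300 := by ring
    rw [e3, e4] at e2
    linarith
  set s : ℤ → ℤ := fun n => f n - f (n - 450) with hsd
  set h : ℤ → ℤ := fun n => s n - s (n - 300) with hhd
  have hh : ∀ n, h n + h (n - 180) + h (n - 360) + h (n - 540) + h (n - 720) = 0 := by
    intro n
    have e1 := hg2 n
    simp only [hgd, hG] at e1
    simp only [hhd, hsd]
    ring_nf
    ring_nf at e1
    linarith
  have hh2 : ∀ n, h (n - 900) = h n := by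
    intro n
    have e1 := hh n
    have e2 := hh (n - 180)
    have e3 : n - 180 - 180 = n - 360 := by ring
    have e4 : n - 180 - 360 = n - 540 := by ring
    have e5 : n - 180 - 540 = n - 720 := by ring
    have e6 : n - 180 - 720 = n - 900 := by ring
    rw [e3, e4, e5, e6] at e2
    linarith
  -- now `s` is 900-periodic
  have hs_bd : ∀ n, -1 ≤ s n ∧ s n ≤ 1 := by
    intro n
    simp only [hsd]
    rcases h01 n with h | h <;> rcases h01 (n - 450) with h' | h' <;> rw [h, h'] <;> norm_num
  have hs : ∀ n, s (n - 900) = s n := by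
    intro n
    -- c m = s m - s (m-900) = h m + h (m-300) + h (m-600)
    have key : ∀ m, s m - s (m - 900) = s (m - 900) - s (m - 1800) := by
      intro m
      have e1 := hh2 m
      have e2 := hh2 (m - 300)
      have e3 := hh2 (m - 600)
      simp only [hhd] at e1 e2 e3
      ring_nf at e1 e2 e3 ⊢
      linarith
    have k1 := key n
    have k2 := key (n - 900)
    have k3 : n - 900 - 900 = n - 1800 := by ring
    rw [k3] at k2
    have b0 := hs_bd n
    have b1 := hs_bd (n - 900)
    have b2 := hs_bd (n - 1800)
    have b3 := hs_bd (n - 900 - 1800)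
    omega
  intro n
  have key : ∀ m, f m - f (m - 900) = f (m - 900) - f (m - 1800) := by
    intro m
    have e1 := hs m
    have e2 := hs (m - 450)
    simp only [hsd] at e1 e2
    ring_nf at e1 e2 ⊢
    linarith
  have k1 := key n
  rcases h01 n with h | h <;> rcases h01 (n - 900) with h' | h' <;>
    rcases h01 (n - 1800) with h'' | h'' <;> omega

/-- Two tiles of `ℤ` without a common tiling complement. -/
theorem no_common_complement (f : ℤ → ℤ) (h01 : ∀ n, f n = 0 ∨ f n = 1)
    (h1 : ∀ n, conv A1 f n = 1) (h2 : ∀ n, conv A2 f n = 1) : False := by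
  have hper := periodic_of_conv f h01 h1
  set C : ℤ → ℤ := fun r => ∑ j ∈ Finset.range 225, f (r + 4 * (j : ℤ)) with hC
  have hC4 : ∀ r, C (r + 4) = C r := by
    intro r
    have e1 : C (r + 4) = ∑ j ∈ Finset.range 225, f (r + 4 * ((j + 1 : ℕ) : ℤ)) := by
      simp only [hC]
      apply Finset.sum_congr rfl
      intro j _
      congr 1
      push_cast
      ring
    have e2 := Finset.sum_range_succ (fun j : ℕ => f (r + 4 * (j : ℤ))) 225
    have e3 := Finset.sum_range_succ' (fun j : ℕ => f (r + 4 * (j : ℤ))) 225
    have e4 : f (r + 4 * ((225 : ℕ) : ℤ)) = f (r + 4 * ((0 : ℕ) : ℤ)) := by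
      have := hper (r + 900)
      push_cast
      have e5 : r + 900 - 900 = r + 4 * 0 := by ring
      have e6 : r + 900 = r + 4 * 225 := by ring
      rw [e5, e6] at this
      exact this.symm
    rw [e1]
    simp only [hC]
    rw [e2, e4] at e3
    linarith
  have hC4' : ∀ (k : ℕ) (r : ℤ), C (r - 4 * (k : ℤ)) = C r := by
    intro k
    induction k with
    | zero => intro r; simp
    | succ k ih =>
      intro r
      have e1 := hC4 (r - 4 * ((k + 1 : ℕ) : ℤ))
      have e2 : r - 4 * ((k + 1 : ℕ) : ℤ) + 4 = r - 4 * (k : ℤ) := by push_cast; ring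
      rw [e2, ih] at e1
      exact e1.symm
  have hconv : ∀ (A : List ℕ) (r : ℤ),
      ∑ j ∈ Finset.range 225, conv A f (r + 4 * (j : ℤ)) = conv A C r := by
    intro A r
    induction A with
    | nil => simp [conv]
    | cons a A ih =>
      have e1 : ∀ n, conv (a :: A) f n = f (n - a) + conv A f n := by
        intro n; simp [conv]
      have e2 : conv (a :: A) C r = C (r - a) + conv A C r := by
        simp [conv]
      rw [e2, ← ih]
      simp only [e1]
      rw [Finset.sum_add_distrib]
      congr 1
      simp only [hC]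
      apply Finset.sum_congr rfl
      intro j _
      congr 1
      ring
  have hmod : ∀ (A : List ℕ) (r : ℤ), conv A C r = conv (A.map (fun a : ℕ => a % 4)) C r := by
    intro A r
    simp only [conv, List.map_map]
    congr 1
    apply List.map_congr_left
    intro a _
    simp only [Function.comp]
    have e1 := hC4' (a / 4) (r - ((a % 4 : ℕ) : ℤ))
    rw [← e1]
    congr 1
    omega
  have hc1 : ∀ r, conv A1 C r = 225 := by
    intro r
    rw [← hconv]
    simp [h1]
  have hc2 : ∀ r, conv A2 C r = 225 := by
    intro r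
    rw [← hconv]
    simp [h2]
  have q1 : ∀ r, 15 * C r + 15 * C (r - 1) = 225 := by
    intro r
    rw [← hc1 r, hmod]
    simp only [conv, A1, List.map_cons, List.map_nil, List.sum_cons, List.sum_nil]
    norm_num
    ring
  have q2 : ∀ r, 15 * C r + 15 * C (r - 2) = 225 := by
    intro r
    rw [← hc2 r, hmod]
    simp only [conv, A2, List.map_cons, List.map_nil, List.sum_cons, List.sum_nil]
    norm_num
    ring
  have a1 := q1 1
  have a2 := q1 2
  have a3 := q2 2
  norm_num at a1 a2 a3
  omega

end Pool.Agent.H35.WT
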