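import Pool.Agent.H35.WT.NoTile
import Pool.Agent.H35.WT.Glue

set_option autoImplicit false

/-!
# The set `Ω` as a union of 117 intervals with integer end points
-/

namespace Pool.Agent.H35.WT

/-- The end points of the intervals. -/
def runs : List (ℕ × ℕ) :=
  [(0, 9), (327, 329), (330, 333), (651, 653), (654, 657), (900, 903), (905, 906), (975, 977),
   (978, 981), (1299, 1301), (1302, 1305), (1620, 1623), (1625, 1626), (1800, 1803), (1805, 1806),
   (2025, 2028), (2030, 2031), (2520, 2523), (2525, 2526), (2703, 2705), (2706, 2709),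
   (2925, 2928), (2930, 2931), (3027, 3029), (3030, 3033), (3240, 3243), (3245, 3246),
   (3351, 3353), (3354, 3357), (3420, 3423), (3425, 3426), (3645, 3648), (3650, 3651),
   (3675, 3677), (3678, 3681), (3825, 3828), (3830, 3831), (3999, 4001), (4002, 4005),
   (4053, 4055), (4056, 4059), (4140, 4143), (4145, 4146), (4377, 4379), (4380, 4383),
   (4545, 4548), (4550, 4551), (4701, 4703), (4704, 4707), (4860, 4863), (4865, 4866),
   (5025, 5027), (5028, 5031), (5040, 5043), (5045, 5046), (5265, 5268), (5270, 5271),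
   (5349, 5351), (5352, 5355), (5403, 5405), (5406, 5409), (5445, 5448), (5450, 5451),
   (5727, 5729), (5730, 5733), (5760, 5763), (5765, 5766), (6051, 6053), (6054, 6057),
   (6165, 6168), (6170, 6171), (6375, 6377), (6378, 6381), (6480, 6483), (6485, 6486),
   (6660, 6663), (6665, 6666), (6699, 6701), (6702, 6705), (6753, 6755), (6756, 6759),
   (6885, 6888), (6890, 6891), (7065, 7068), (7070, 7071), (7077, 7079), (7080, 7083),
   (7380, 7383), (7385, 7386), (7401, 7403), (7404, 7407), (7725, 7727), (7728, 7731),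
   (7785, 7788), (7790, 7791), (8049, 8051), (8052, 8055), (8280, 8283), (8285, 8286),
   (8505, 8508), (8510, 8511), (8685, 8688), (8690, 8691), (9405, 9408), (9410, 9411),
   (9453, 9455), (9456, 9459), (9777, 9779), (9780, 9783), (10101, 10103), (10104, 10107),
   (10305, 10308), (10310, 10311), (10425, 10427), (10428, 10431), (10749, 10751), (10752, 10755)]

/-- boolean list membership, fast in the kernel -/
def memb (m : ℕ) : List ℕ → Bool
  | [] => false
  | a :: A => Nat.beq a m || memb m A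

theorem memb_iff (m : ℕ) (A : List ℕ) : memb m A = true ↔ m ∈ A := by
  induction A with
  | nil => simp [memb]
  | cons a A ih =>
    simp only [memb, Bool.or_eq_true, ih, List.mem_cons]
    constructor
    · rintro (h | h)
      · exact Or.inl (Nat.eq_of_beq_eq_true h).symm
      · exact Or.inr h
    · rintro (h | h)
      · left; rw [h]; exact Nat.beq_refl a
      · exact Or.inr h

/-- boolean version of `inB` -/
def bB (m : ℕ) : Bool :=
  bif (Nat.beq (m % 9) 0 || Nat.beq (m % 9) 1 || Nat.beq (m % 9) 2 || Nat.beq (m % 9) 5) then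
    memb (m / 9) A1 else memb (m / 9) A2

/-- `A1` as a predicate on `ℤ` -/
def P1 (k : ℤ) : Prop := ∃ a ∈ A1, (a : ℤ) = k

/-- `A2` as a predicate on `ℤ` -/
def P2 (k : ℤ) : Prop := ∃ a ∈ A2, (a : ℤ) = k

theorem inB_of_bB {m : ℕ} (h : bB m = true) : inB P1 P2 (m : ℤ) := by
  unfold bB at h
  have hm : (m : ℤ) = 9 * ((m / 9 : ℕ) : ℤ) + ((m % 9 : ℕ) : ℤ) := by omega
  by_cases hr : (Nat.beq (m % 9) 0 || Nat.beq (m % 9) 1 || Nat.beq (m % 9) 2 || Nat.beq (m % 9) 5) = true
  · rw [hr, cond_true, memb_iff] at h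
    have hr' : ((m % 9 : ℕ) : ℤ) = 0 ∨ ((m % 9 : ℕ) : ℤ) = 1 ∨ ((m % 9 : ℕ) : ℤ) = 2 ∨
        ((m % 9 : ℕ) : ℤ) = 5 := by
      have hb : ∀ k, Nat.beq (m % 9) k = true ↔ m % 9 = k := fun k =>
        ⟨Nat.eq_of_beq_eq_true, fun h => by rw [h]; exact Nat.beq_refl k⟩
      simp only [Bool.or_eq_true, hb] at hr
      omega
    rw [inB_X hm hr']
    exact ⟨_, h, rfl⟩
  · have hr1 := hr
    rw [Bool.not_eq_true] at hr1
    rw [hr1, cond_false, memb_iff] at h
    have hr' : ((m % 9 : ℕ) : ℤ) = 3 ∨ ((m % 9 : ℕ) : ℤ) = 4 ∨ ((m % 9 : ℕ) : ℤ) = 6 ∨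
        ((m % 9 : ℕ) : ℤ) = 7 ∨ ((m % 9 : ℕ) : ℤ) = 8 := by
      have hb : ∀ k, Nat.beq (m % 9) k = true ↔ m % 9 = k := fun k =>
        ⟨Nat.eq_of_beq_eq_true, fun h => by rw [h]; exact Nat.beq_refl k⟩
      simp only [Bool.or_eq_true, hb] at hr
      omega
    rw [inB_Y hm hr']
    exact ⟨_, h, rfl⟩

/-- all cells of a run are in `B` -/
def runOK (s : ℕ) : ℕ → Bool
  | 0 => true
  | l + 1 => bB (s + l) && runOK s l

theorem runOK_spec {s : ℕ} : ∀ {l : ℕ}, runOK s l = true → ∀ j < l, bB (s + j) = true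
  | 0, _, j, hj => absurd hj (Nat.not_lt_zero j)
  | l + 1, h, j, hj => by
    simp only [runOK, Bool.and_eq_true] at h
    rcases Nat.lt_succ_iff_lt_or_eq.mp hj with h1 | h1
    · exact runOK_spec h.2 j h1
    · subst h1
      exact h.1

theorem runs_ok : runs.all (fun p => runOK p.1 (p.2 - p.1)) = true := by decide +kernel

theorem inB_of_run {p : ℕ × ℕ} (hp : p ∈ runs) {m : ℤ} (h1 : (p.1 : ℤ) ≤ m) (h2 : m < p.2) :
    inB P1 P2 m := by
  have h := (List.all_eq_true.mp runs_ok) p hp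
  have h3 := runOK_spec h (m.toNat - p.1) (by omega)
  have h4 := inB_of_bB h3
  have h5 : ((p.1 + (m.toNat - p.1) : ℕ) : ℤ) = m := by omega
  rwa [h5] at h4

/-- `m` is in some run. -/
def inRuns (m : ℕ) : List (ℕ × ℕ) → Bool
  | [] => false
  | p :: R => (Nat.ble p.1 m && Nat.ble (m + 1) p.2) || inRuns m R

theorem inRuns_spec {m : ℕ} : ∀ {R : List (ℕ × ℕ)}, inRuns m R = true → ∃ p ∈ R, p.1 ≤ m ∧ m < p.2
  | [], h => by simp [inRuns] at h
  | p :: R, h => by
    simp only [inRuns, Bool.or_eq_true, Bool.and_eq_true] at h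
    rcases h with h | h
    · exact ⟨p, List.mem_cons_self, Nat.le_of_ble_eq_true h.1, Nat.le_of_ble_eq_true h.2⟩
    · obtain ⟨q, hq, h1⟩ := inRuns_spec h
      exact ⟨q, List.mem_cons_of_mem _ hq, h1⟩

theorem cells1 : A1.all (fun k => inRuns (9 * k) runs && inRuns (9 * k + 1) runs &&
    inRuns (9 * k + 2) runs && inRuns (9 * k + 5) runs) = true := by decide +kernel

theorem cells2 : A2.all (fun k => inRuns (9 * k + 3) runs && inRuns (9 * k + 4) runs &&
    inRuns (9 * k + 6) runs && inRuns (9 * k + 7) runs && inRuns (9 * k + 8) runs) = true := by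
  decide +kernel

theorem run_of_inB {m : ℤ} (h : inB P1 P2 m) : ∃ p ∈ runs, (p.1 : ℤ) ≤ m ∧ m < p.2 := by
  rcases h with ⟨hr, a, ha, hk⟩ | ⟨hr, a, ha, hk⟩
  · have h1 := (List.all_eq_true.mp cells1) a ha
    simp only [Bool.and_eq_true] at h1
    obtain ⟨⟨⟨h10, h11⟩, h12⟩, h15⟩ := h1
    rcases hr with hr | hr | hr | hr
    · obtain ⟨p, hp, h2, h3⟩ := inRuns_spec h10
      exact ⟨p, hp, by omega, by omega⟩
    · obtain ⟨p, hp, h2, h3⟩ := inRuns_spec h11
      exact ⟨p, hp, by omega, by omega⟩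
    · obtain ⟨p, hp, h2, h3⟩ := inRuns_spec h12
      exact ⟨p, hp, by omega, by omega⟩
    · obtain ⟨p, hp, h2, h3⟩ := inRuns_spec h15
      exact ⟨p, hp, by omega, by omega⟩
  · have h1 := (List.all_eq_true.mp cells2) a ha
    simp only [Bool.and_eq_true] at h1
    obtain ⟨⟨⟨⟨h13, h14⟩, h16⟩, h17⟩, h18⟩ := h1
    rcases hr with hr | hr | hr | hr | hr
    · obtain ⟨p, hp, h2, h3⟩ := inRuns_spec h13
      exact ⟨p, hp, by omega, by omega⟩
    · obtain ⟨p, hp, h2, h3⟩ := inRuns_spec h14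
      exact ⟨p, hp, by omega, by omega⟩
    · obtain ⟨p, hp, h2, h3⟩ := inRuns_spec h16
      exact ⟨p, hp, by omega, by omega⟩
    · obtain ⟨p, hp, h2, h3⟩ := inRuns_spec h17
      exact ⟨p, hp, by omega, by omega⟩
    · obtain ⟨p, hp, h2, h3⟩ := inRuns_spec h18
      exact ⟨p, hp, by omega, by omega⟩

theorem runs_length : runs.length = 117 := by decide +kernel

theorem runs_lt : ∀ p ∈ runs, p.1 < p.2 := by decide +kernel

theorem runs_sep : runs.Pairwise (fun p q => p.2 < q.1) := by decide +kernel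

/-- the left end point of the `i`-th interval -/
def lo (i : Fin 117) : ℕ := (runs.get (i.cast runs_length.symm)).1

/-- the right end point of the `i`-th interval -/
def hi (i : Fin 117) : ℕ := (runs.get (i.cast runs_length.symm)).2

theorem lo_lt_hi (i : Fin 117) : lo i < hi i := runs_lt _ (List.get_mem _ _)

theorem hi_lt_lo {i j : Fin 117} (h : i < j) : hi i < lo j :=
  (List.pairwise_iff_get.mp runs_sep) _ _ (by simpa using h)

/-- the set `Ω` -/
def Om : Set ℝ := ⋃ i : Fin 117, Set.Ioo (lo i : ℝ) (hi i : ℝ)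

theorem mem_Om_iff {x : ℝ} : x ∈ Om ↔ ∃ p ∈ runs, (p.1 : ℝ) < x ∧ x < p.2 := by
  simp only [Om, Set.mem_iUnion, Set.mem_Ioo]
  constructor
  · rintro ⟨i, h⟩
    exact ⟨_, List.get_mem runs (i.cast runs_length.symm), h⟩
  · rintro ⟨p, hp, h⟩
    obtain ⟨i, hi'⟩ := List.get_of_mem hp
    refine ⟨i.cast runs_length, ?_⟩
    have e : runs.get ((i.cast runs_length).cast runs_length.symm) = p := hi'
    simp only [lo, hi, e]
    exact h

/-- a point of `Ω` lies over a cell of `B`. -/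
theorem inB_floor {x : ℝ} (hx : x ∈ Om) : inB P1 P2 ⌊x⌋ := by
  obtain ⟨p, hp, h1, h2⟩ := mem_Om_iff.1 hx
  refine inB_of_run hp ?_ ?_
  · rw [Int.le_floor]
    exact_mod_cast h1.le
  · rw [Int.floor_lt]
    exact_mod_cast h2

/-- the open cells of `B` are in `Ω`. -/
theorem mem_Om_of_cell {x : ℝ} {m : ℤ} (hm : inB P1 P2 m) (h1 : (m : ℝ) < x) (h2 : x < m + 1) :
    x ∈ Om := by
  obtain ⟨p, hp, h3, h4⟩ := run_of_inB hm
  refine mem_Om_iff.2 ⟨p, hp, ?_, ?_⟩
  · have : ((p.1 : ℤ) : ℝ) ≤ (m : ℝ) := by exact_mod_cast h3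
    push_cast at this
    linarith
  · have : (m : ℝ) + 1 ≤ ((p.2 : ℤ) : ℝ) := by exact_mod_cast h4
    push_cast at this
    linarith

end Pool.Agent.H35.WT
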