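import Pool.Prelude.Def_F_ab5c0e36
import Pool.Agent.H35.WT.Runs

set_option autoImplicit false

/-!
# `Ω` does not tile its complement properly
-/

open MeasureTheory Set

namespace Pool.Agent.H35.WT

theorem measurableSet_Om : MeasurableSet Om :=
  MeasurableSet.iUnion fun _ => measurableSet_Ioo

theorem isUnion_Om : Na99134c6.IsUnionOfNIntervals 117 Om := by
  refine ⟨fun i => (lo i : ℝ), fun i => (hi i : ℝ), ?_, ?_, rfl⟩
  · intro i
    exact Nat.cast_lt.2 (lo_lt_hi i)
  · intro i j h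
    exact Nat.cast_lt.2 (hi_lt_lo h)

theorem isBounded_Om : Bornology.IsBounded Om :=
  (Bornology.isBounded_iUnion).2 fun _ => Metric.isBounded_Ioo _ _

/-- the integral in the definition of weak tilings -/
theorem integral_eq (ν : Measure ℝ) (x : ℝ) :
    ∫ t, Om.indicator (fun _ => (1 : ℝ)) (x - t) ∂ν = (ν {t | x - t ∈ Om}).toReal := by
  have hS : MeasurableSet {t : ℝ | x - t ∈ Om} :=
    (measurable_const.sub measurable_id) measurableSet_Om
  have e : (fun t => Om.indicator (fun _ => (1 : ℝ)) (x - t)) =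
      ({t : ℝ | x - t ∈ Om}).indicator (fun _ => (1 : ℝ)) := by
    ext t
    rfl
  rw [e, integral_indicator_const _ hS]
  simp [Measure.real]

theorem proper_pointwise {T : Set ℝ} (h : Na99134c6.IsProperTiling Om T) :
    ∀ᵐ x ∂(volume : Measure ℝ), (x ∈ Om → ∀ t ∈ T, x - t ∉ Om) ∧
      (x ∉ Om → ∃ t ∈ T, x - t ∈ Om) ∧
      (∀ t ∈ T, ∀ t' ∈ T, x - t ∈ Om → x - t' ∈ Om → t = t') := by
  obtain ⟨hbd, hmeas, hlf, hae⟩ := h
  filter_upwards [hae] with x hx
  set μ : Measure ℝ := Measure.sum (fun t : T => Measure.dirac (t : ℝ)) with hμ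
  have : IsLocallyFiniteMeasure μ := hlf
  have hS : MeasurableSet {t : ℝ | x - t ∈ Om} :=
    (measurable_const.sub measurable_id) measurableSet_Om
  rw [integral_eq] at hx
  have hfin : μ {t | x - t ∈ Om} ≠ ⊤ := by
    obtain ⟨R, hR⟩ := hbd.subset_closedBall 0
    have h1 : {t | x - t ∈ Om} ⊆ Metric.closedBall x R := by
      intro t ht
      have := hR ht
      rw [Metric.mem_closedBall, Real.dist_eq] at this ⊢
      rw [sub_zero] at this
      rwa [abs_sub_comm]
    exact ne_of_lt ((measure_mono h1).trans_lt (isCompact_closedBall x R).measure_lt_top)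
  have hsum : μ {t | x - t ∈ Om} =
      ∑' t : T, ({t : ℝ | x - t ∈ Om}).indicator (1 : ℝ → ENNReal) (t : ℝ) := by
    rw [hμ, Measure.sum_apply _ hS]
    congr 1
    ext t
    rw [Measure.dirac_apply' _ hS]
  -- case distinction
  by_cases hxO : x ∈ Om
  · have h0 : μ {t | x - t ∈ Om} = 0 := by
      have : (μ {t | x - t ∈ Om}).toReal = 0 := by
        rw [hx]
        simp [hxO]
      rcases (ENNReal.toReal_eq_zero_iff _).1 this with h | h
      · exact h
      · exact absurd h hfin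
    rw [hsum, ENNReal.tsum_eq_zero] at h0
    have hno : ∀ t ∈ T, x - t ∉ Om := by
      intro t ht hmem
      have := h0 ⟨t, ht⟩
      rw [Set.indicator_of_mem (by exact hmem)] at this
      simp at this
    refine ⟨fun _ => hno, fun h => absurd hxO h, ?_⟩
    intro t ht t' _ h1 _
    exact absurd h1 (hno t ht)
  · have h1 : μ {t | x - t ∈ Om} = 1 := by
      have : (μ {t | x - t ∈ Om}).toReal = 1 := by
        rw [hx]
        simp [hxO]
      rw [← ENNReal.ofReal_toReal hfin, this, ENNReal.ofReal_one]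
    refine ⟨fun h => absurd h hxO, fun _ => ?_, ?_⟩
    · by_contra hcon
      push Not at hcon
      have : μ {t | x - t ∈ Om} = 0 := by
        rw [hsum, ENNReal.tsum_eq_zero]
        intro t
        exact Set.indicator_of_notMem (by exact hcon t t.2) _
      rw [this] at h1
      exact zero_ne_one h1
    · intro t ht t' ht' hm hm'
      by_contra hne
      have hle := ENNReal.sum_le_tsum (f := fun t : T =>
        ({t : ℝ | x - t ∈ Om}).indicator (1 : ℝ → ENNReal) (t : ℝ)) {⟨t, ht⟩, ⟨t', ht'⟩}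
      rw [← hsum, h1, Finset.sum_pair (by simpa using hne)] at hle
      rw [Set.indicator_of_mem (by exact hm), Set.indicator_of_mem (by exact hm')] at hle
      norm_num at hle

/-- From a real tiling to an integer tiling. -/
theorem to_int {T : Set ℝ} (h0 : (0 : ℝ) ∈ T)
    (hG : ∀ᵐ x ∂(volume : Measure ℝ), (∃ t ∈ T, x - t ∈ Om) ∧
      (∀ t ∈ T, ∀ t' ∈ T, x - t ∈ Om → x - t' ∈ Om → t = t')) :
    (∀ m : ℤ, ∃ n : ℤ, (n : ℝ) ∈ T ∧ inB P1 P2 (m - n)) ∧
    (∀ m n n' : ℤ, (n : ℝ) ∈ T → (n' : ℝ) ∈ T → inB P1 P2 (m - n) → inB P1 P2 (m - n') →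
      n = n') := by
  have hD := MeasureTheory.Measure.dense_of_ae hG
  -- two overlapping cells
  have hA : ∀ t ∈ T, ∀ t' ∈ T, ∀ b b' : ℤ, inB P1 P2 b → inB P1 P2 b' →
      |t + b - (t' + b')| < 1 → t = t' := by
    intro t ht t' ht' b b' hb hb' hlt
    rw [abs_lt] at hlt
    have hlt2 : max (t + b) (t' + b') < min (t + b) (t' + b') + 1 := by
      rcases le_total (t + b) (t' + b') with h | h
      · rw [max_eq_right h, min_eq_left h]; linarith [hlt.1]
      · rw [max_eq_left h, min_eq_right h]; linarith [hlt.2]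
    obtain ⟨x, hx, h1, h2⟩ := hD.exists_between hlt2
    have h3 := max_lt_iff.1 h1
    have h4 : x < t + b + 1 ∧ x < t' + b' + 1 :=
      ⟨h2.trans_le (by linarith [min_le_left (t + b) (t' + b')]),
        h2.trans_le (by linarith [min_le_right (t + b) (t' + b')])⟩
    exact hx.2 t ht t' ht' (mem_Om_of_cell hb (by linarith [h3.1]) (by linarith [h4.1]))
      (mem_Om_of_cell hb' (by linarith [h3.2]) (by linarith [h4.2]))
  -- starting points of the cells
  set C : Set ℝ := {c | ∃ t ∈ T, ∃ b : ℤ, inB P1 P2 b ∧ c = t + b} with hC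
  have hsep : ∀ c ∈ C, ∀ c' ∈ C, |c - c'| < 1 → c = c' := by
    rintro c ⟨t, ht, b, hb, rfl⟩ c' ⟨t', ht', b', hb', rfl⟩ hlt
    have e := hA t ht t' ht' b b' hb hb' hlt
    subst e
    have h1 : |((b - b' : ℤ) : ℝ)| < 1 := by
      push_cast
      convert hlt using 2
      ring
    have h2 : |b - b'| < 1 := by
      rw [← Int.cast_abs] at h1
      exact_mod_cast h1
    have h3 : b = b' := by
      rw [Int.abs_lt_one_iff] at h2
      omega
    rw [h3]
  have hcov : ∀ c d : ℝ, c < d → ∃ x, c < x ∧ x < d ∧ ∃ c' ∈ C, c' ≤ x ∧ x < c' + 1 := by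
    intro c d hcd
    obtain ⟨x, hx, h1, h2⟩ := hD.exists_between hcd
    obtain ⟨t, ht, hxt⟩ := hx.1
    refine ⟨x, h1, h2, t + (⌊x - t⌋ : ℝ), ⟨t, ht, ⌊x - t⌋, inB_floor hxt, rfl⟩, ?_, ?_⟩
    · linarith [Int.floor_le (x - t)]
    · linarith [Int.lt_floor_add_one (x - t)]
  have hge : ∀ c ∈ C, ∀ c' ∈ C, c < c' → c + 1 ≤ c' := by
    intro c hc c' hc' hlt
    by_contra hcon
    push Not at hcon
    have := hsep c' hc' c hc (by rw [abs_lt]; constructor <;> linarith)
    linarith
  have hsucc : ∀ c ∈ C, c + 1 ∈ C := by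
    intro c hc
    obtain ⟨x1, hx1, hx1', c1, hc1, h1, h1'⟩ := hcov (c + 1) (c + 2) (by linarith)
    have h2 := hge c hc c1 hc1 (by linarith)
    rcases h2.eq_or_lt with h3 | h3
    · rwa [h3]
    · exfalso
      obtain ⟨x2, hx2, hx2', c2, hc2, h4, h4'⟩ := hcov (c + 1) c1 h3
      have h5 := hge c hc c2 hc2 (by linarith)
      have h6 := hge c2 hc2 c1 hc1 (by linarith)
      linarith
  have hpred : ∀ c ∈ C, c - 1 ∈ C := by
    intro c hc
    obtain ⟨x1, hx1, hx1', c1, hc1, h1, h1'⟩ := hcov (c - 1) c (by linarith)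
    have h2 := hge c1 hc1 c hc (by linarith)
    have h2' : c1 ≤ c - 1 := by linarith
    rcases h2'.eq_or_lt with h3 | h3
    · rwa [← h3]
    · exfalso
      obtain ⟨x2, hx2, hx2', c2, hc2, h4, h4'⟩ := hcov (c1 + 1) c (by linarith)
      have h5 := hge c2 hc2 c hc (by linarith)
      have h6 := hge c1 hc1 c2 hc2 (by linarith)
      linarith
  have hB0 : inB P1 P2 0 := by
    rw [inB_X (k := 0) (r := 0) (by norm_num) (by simp)]
    exact ⟨0, by simp [A1], by simp⟩
  have hC0 : (0 : ℝ) ∈ C := ⟨0, h0, 0, hB0, by simp⟩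
  have hCZ : ∀ n : ℤ, (n : ℝ) ∈ C := by
    intro n
    induction n using Int.induction_on with
    | zero => simpa using hC0
    | succ i ih =>
      have := hsucc _ ih
      push_cast at this ⊢
      exact this
    | pred i ih =>
      have := hpred _ ih
      push_cast at this ⊢
      exact this
  have hCint : ∀ c ∈ C, c = (⌊c⌋ : ℝ) := by
    intro c hc
    refine hsep c hc _ (hCZ _) ?_
    rw [abs_lt]
    constructor <;> linarith [Int.floor_le c, Int.lt_floor_add_one c]
  have hTint : ∀ t ∈ T, t = (⌊t⌋ : ℝ) := by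
    intro t ht
    exact hCint t ⟨t, ht, 0, hB0, by simp⟩
  constructor
  · intro m
    obtain ⟨t, ht, b, hb, e⟩ := hCZ m
    have e1 := hTint t ht
    refine ⟨⌊t⌋, by rwa [← e1], ?_⟩
    have e2 : m - ⌊t⌋ = b := by
      rw [e1] at e
      have : m = ⌊t⌋ + b := by exact_mod_cast e
      omega
    rwa [e2]
  · intro m n n' hn hn' hb hb'
    have := hA _ hn _ hn' _ _ hb hb' (by
      push_cast
      have : (n : ℝ) + (m - n) - (n' + (m - n')) = 0 := by ring
      rw [this]
      simp)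
    exact_mod_cast this

theorem conv_eq_one {A : List ℕ} (hA : A.Nodup) {Q : ℤ → Prop} [DecidablePred Q] {n : ℤ}
    (h : ∃! k, (∃ a ∈ A, (a : ℤ) = k) ∧ Q (n - k)) :
    conv A (fun m => if Q m then 1 else 0) n = 1 := by
  unfold conv
  rw [← List.sum_toFinset _ hA]
  obtain ⟨k, ⟨⟨a, ha, rfl⟩, hQ⟩, huniq⟩ := h
  rw [Finset.sum_eq_single a]
  · simp [hQ]
  · intro b hb hne
    simp only [ite_eq_right_iff, one_ne_zero, imp_false]
    intro hQb
    have := huniq b ⟨⟨b, List.mem_toFinset.1 hb, rfl⟩, hQb⟩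
    exact hne (by exact_mod_cast this)
  · intro h
    exact absurd (List.mem_toFinset.2 ha) h

theorem A1_nodup : A1.Nodup := by decide +kernel

theorem A2_nodup : A2.Nodup := by decide +kernel

/-- `Ω` does not tile its complement properly. -/
theorem not_proper (T : Set ℝ) : ¬ Na99134c6.IsProperTiling Om T := by
  intro h
  have hp := proper_pointwise h
  set T' : Set ℝ := insert 0 T with hT'
  have hG : ∀ᵐ x ∂(volume : Measure ℝ), (∃ t ∈ T', x - t ∈ Om) ∧
      (∀ t ∈ T', ∀ t' ∈ T', x - t ∈ Om → x - t' ∈ Om → t = t') := by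
    filter_upwards [hp] with x hx
    obtain ⟨h1, h2, h3⟩ := hx
    constructor
    · by_cases hxO : x ∈ Om
      · exact ⟨0, Set.mem_insert _ _, by simpa using hxO⟩
      · obtain ⟨t, ht, hm⟩ := h2 hxO
        exact ⟨t, Set.mem_insert_of_mem _ ht, hm⟩
    · intro t ht t' ht' hm hm'
      rcases ht with rfl | ht <;> rcases ht' with rfl | ht'
      · rfl
      · rw [sub_zero] at hm
        exact absurd hm' (h1 hm t' ht')
      · rw [sub_zero] at hm'
        exact absurd hm (h1 hm' t ht)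
      · exact h3 t ht t' ht' hm hm'
  obtain ⟨hcov, huniq⟩ := to_int (Set.mem_insert _ _) hG
  obtain ⟨g1, g2⟩ := glue (X := P1) (Y := P2) (T := fun n : ℤ => (n : ℝ) ∈ T')
    (by simp [hT']) ⟨0, by simp [A1], by simp⟩ hcov huniq
  classical
  refine no_common_complement (fun m => if ((9 * m : ℤ) : ℝ) ∈ T' then 1 else 0) ?_ ?_ ?_
  · intro n
    by_cases hn : ((9 * n : ℤ) : ℝ) ∈ T'
    · right; rw [if_pos hn]
    · left; rw [if_neg hn]
  · intro n
    exact conv_eq_one A1_nodup (Q := fun m : ℤ => ((9 * m : ℤ) : ℝ) ∈ T') (g1 n)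
  · intro n
    exact conv_eq_one A2_nodup (Q := fun m : ℤ => ((9 * m : ℤ) : ℝ) ∈ T') (g2 n)

end Pool.Agent.H35.WT
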