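import Pool.Agent.H35.WT.NoTile

set_option autoImplicit false

/-!
# The common weak tiling complement of `A1` and `A2`
-/

namespace Pool.Agent.H35.WT

/-- `240` times the weight, as a function of the gcd with `900`. -/
def wg (g : ℕ) : ℕ :=
  bif Nat.beq g 900 then 240 else
  bif Nat.beq g 1 then 10 else
  bif Nat.beq g 3 then 10 else
  bif Nat.beq g 9 then 10 else
  bif Nat.beq g 2 then 9 else
  bif Nat.beq g 4 then 9 else
  bif Nat.beq g 10 then 8 else
  bif Nat.beq g 50 then 8 else
  bif Nat.beq g 30 then 40 else
  bif Nat.beq g 90 then 40 else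
  bif Nat.beq g 60 then 60 else 0

/-- `240` times the weight of a residue `0 ≤ n < 900`. -/
def wN (n : ℕ) : ℕ := wg (Nat.gcd n 900)

/-- sum of the weights over `n - a`, `a ∈ A`. -/
def wsum (n : ℕ) : List ℕ → ℕ
  | [] => 0
  | a :: A => wN ((n + 1800 - a) % 900) + wsum n A

/-- the check for all residues below `N`. -/
def checkAll (A : List ℕ) : ℕ → Bool
  | 0 => true
  | N + 1 => Nat.beq (wsum N A) 240 && checkAll A N

theorem checkAll_spec {A : List ℕ} : ∀ {N : ℕ}, checkAll A N = true → ∀ n < N, wsum n A = 240
  | 0, _, n, hn => absurd hn (Nat.not_lt_zero n)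
  | N + 1, h, n, hn => by
    simp only [checkAll, Bool.and_eq_true] at h
    rcases Nat.lt_succ_iff_lt_or_eq.mp hn with h1 | h1
    · exact checkAll_spec h.2 n h1
    · subst h1
      exact Nat.eq_of_beq_eq_true h.1

theorem check1 : checkAll A1 900 = true := by decide +kernel

theorem check2 : checkAll A2 900 = true := by decide +kernel

end Pool.Agent.H35.WT
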