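import Pool.Prelude.Def_F_ab5c0e36
import Pool.Agent.H35.WT.Runs
import Pool.Agent.H35.WT.Weight
import Pool.Agent.H35.WT.Real

set_option autoImplicit false

/-!
# `Ω` weakly tiles its complement
-/

open MeasureTheory Set

namespace Pool.Agent.H35.WT

/-- `240` times the weight of an integer. -/
def wZ (k : ℤ) : ℕ := wN (k % 900).toNat

theorem wsum_eq {A : List ℕ} (hA : ∀ a ∈ A, a ≤ 1800) (q : ℤ) :
    (A.map (fun a : ℕ => wZ (q - (a : ℤ)))).sum = wsum (q % 900).toNat A := by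
  induction A with
  | nil => simp [wsum]
  | cons a A ih =>
    simp only [List.map_cons, List.sum_cons, wsum]
    rw [ih (fun b hb => hA b (List.mem_cons_of_mem _ hb))]
    congr 1
    unfold wZ
    congr 1
    have := hA a List.mem_cons_self
    omega

theorem wZ_sum {A : List ℕ} (hnd : A.Nodup) (hA : ∀ a ∈ A, a ≤ 1800)
    (hc : checkAll A 900 = true) (q : ℤ) : ∑ a ∈ A.toFinset, wZ (q - (a : ℤ)) = 240 := by
  rw [List.sum_toFinset _ hnd, wsum_eq hA]
  exact checkAll_spec hc _ (by omega)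

theorem wZ_zero : wZ 0 = 240 := by decide +kernel

/-- The weights of the weak tiling measure. -/
noncomputable def W (k : ℤ) : ENNReal := if k = 0 then 0 else (wZ k : ENNReal) / 240

theorem W_lt_top (k : ℤ) : W k < ⊤ := by
  unfold W
  split_ifs
  · simp
  · exact ENNReal.div_lt_top (ENNReal.natCast_ne_top _) (by norm_num)

theorem W_sum {A : List ℕ} (hnd : A.Nodup) (hA : ∀ a ∈ A, a ≤ 1800)
    (hc : checkAll A 900 = true) (q : ℤ) [Decidable (∃ a ∈ A, (a : ℤ) = q)] :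
    ∑ a ∈ A.toFinset, W (q - (a : ℤ)) = if (∃ a ∈ A, (a : ℤ) = q) then 0 else 1 := by
  have h240 := wZ_sum hnd hA hc q
  split_ifs with h
  · obtain ⟨a0, ha0, rfl⟩ := h
    apply Finset.sum_eq_zero
    intro a ha
    unfold W
    split_ifs with h1
    · rfl
    · have h2 : ({a0, a} : Finset ℕ) ⊆ A.toFinset := by
        intro b hb
        simp only [Finset.mem_insert, Finset.mem_singleton] at hb
        rcases hb with rfl | rfl
        · exact List.mem_toFinset.2 ha0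
        · exact ha
      have h3 := Finset.sum_le_sum_of_subset (f := fun a : ℕ => wZ ((a0 : ℤ) - (a : ℤ))) h2
      have hne : a0 ≠ a := by
        rintro rfl
        exact h1 (by simp)
      rw [h240, Finset.sum_pair hne, sub_self, wZ_zero] at h3
      have h4 : wZ ((a0 : ℤ) - (a : ℤ)) = 0 := by omega
      rw [h4]
      simp
  · have h1 : ∀ a ∈ A.toFinset, W (q - (a : ℤ)) = (wZ (q - (a : ℤ)) : ENNReal) * (240 : ENNReal)⁻¹ := by
      intro a ha
      unfold W
      rw [if_neg, ENNReal.div_eq_inv_mul, mul_comm]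
      intro h2
      exact h ⟨a, List.mem_toFinset.1 ha, by linarith⟩
    rw [Finset.sum_congr rfl h1, ← Finset.sum_mul, ← Nat.cast_sum, h240]
    have : ((240 : ℕ) : ENNReal) = 240 := by norm_num
    rw [this]
    exact ENNReal.mul_inv_cancel (by norm_num) (by norm_num)

theorem W_tsum {A : List ℕ} (hnd : A.Nodup) (hA : ∀ a ∈ A, a ≤ 1800)
    (hc : checkAll A 900 = true) (q : ℤ) [Decidable (∃ a ∈ A, (a : ℤ) = q)]
    [∀ k : ℤ, Decidable (∃ a ∈ A, (a : ℤ) = q - k)] :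
    ∑' k : ℤ, (if (∃ a ∈ A, (a : ℤ) = q - k) then W k else 0) =
      if (∃ a ∈ A, (a : ℤ) = q) then 0 else 1 := by
  rw [← W_sum hnd hA hc q]
  have hinj : Set.InjOn (fun a : ℕ => q - (a : ℤ)) (A.toFinset : Set ℕ) := by
    intro a _ b _ h
    simp only at h
    omega
  rw [tsum_eq_sum (s := A.toFinset.image (fun a : ℕ => q - (a : ℤ))), Finset.sum_image hinj]
  · apply Finset.sum_congr rfl
    intro a ha
    rw [if_pos ⟨a, List.mem_toFinset.1 ha, by ring⟩]
  · intro k hk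
    rw [if_neg]
    rintro ⟨a, ha, e⟩
    apply hk
    rw [Finset.mem_image]
    exact ⟨a, List.mem_toFinset.2 ha, by linarith⟩

/-- The weak tiling measure. -/
noncomputable def nu : Measure ℝ :=
  Measure.sum (fun k : ℤ => W k • Measure.dirac ((9 * k : ℤ) : ℝ))

theorem nu_apply {S : Set ℝ} (hS : MeasurableSet S) [∀ k : ℤ, Decidable (((9 * k : ℤ) : ℝ) ∈ S)] :
    nu S = ∑' k : ℤ, (if ((9 * k : ℤ) : ℝ) ∈ S then W k else 0) := by
  unfold nu
  rw [Measure.sum_apply _ hS]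
  congr 1
  ext k
  rw [Measure.smul_apply, Measure.dirac_apply' _ hS]
  by_cases h : ((9 * k : ℤ) : ℝ) ∈ S
  · rw [if_pos h, Set.indicator_of_mem h]
    simp
  · rw [if_neg h, Set.indicator_of_notMem h]
    simp

theorem nu_locallyFinite : IsLocallyFiniteMeasure nu := by
  classical
  constructor
  intro x
  refine ⟨Ioo (x - 1) (x + 1), Ioo_mem_nhds (by linarith) (by linarith), ?_⟩
  rw [nu_apply measurableSet_Ioo]
  rw [tsum_eq_sum (s := Finset.Icc (⌊(x - 1) / 9⌋) (⌈(x + 1) / 9⌉))]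
  · apply ENNReal.sum_lt_top.2
    intro k _
    split_ifs
    · exact W_lt_top k
    · simp
  · intro k hk
    rw [if_neg]
    rintro ⟨h1, h2⟩
    apply hk
    push_cast at h1 h2
    rw [Finset.mem_Icc]
    constructor
    · have : ((⌊(x - 1) / 9⌋ : ℤ) : ℝ) < ((k : ℤ) : ℝ) + 1 := by
        have := Int.floor_le ((x - 1) / 9)
        linarith
      have h3 : ⌊(x - 1) / 9⌋ < k + 1 := by exact_mod_cast this
      omega
    · have : ((k : ℤ) : ℝ) - 1 < ((⌈(x + 1) / 9⌉ : ℤ) : ℝ) := by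
        have := Int.le_ceil ((x + 1) / 9)
        linarith
      have h3 : k - 1 < ⌈(x + 1) / 9⌉ := by exact_mod_cast this
      omega

theorem mem_shift_iff {x : ℝ} (hx : ∀ n : ℤ, (n : ℝ) ≠ x) (k : ℤ) :
    x - ((9 * k : ℤ) : ℝ) ∈ Om ↔ inB P1 P2 (⌊x⌋ - 9 * k) := by
  constructor
  · intro h
    have := inB_floor h
    rwa [Int.floor_sub_intCast] at this
  · intro h
    have h1 : (⌊x⌋ : ℝ) < x := lt_of_le_of_ne (Int.floor_le x) (hx _)
    refine mem_Om_of_cell h ?_ ?_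
    · push_cast
      linarith
    · push_cast
      linarith [Int.lt_floor_add_one x]

theorem nu_shift {x : ℝ} (hx : ∀ n : ℤ, (n : ℝ) ≠ x) [Decidable (x ∈ Om)] :
    nu {t | x - t ∈ Om} = if x ∈ Om then 0 else 1 := by
  classical
  have hS : MeasurableSet {t : ℝ | x - t ∈ Om} :=
    (measurable_const.sub measurable_id) measurableSet_Om
  rw [nu_apply hS]
  obtain ⟨q, r, hr0, hr9, hqr⟩ : ∃ q r : ℤ, 0 ≤ r ∧ r < 9 ∧ ⌊x⌋ = 9 * q + r :=
    ⟨⌊x⌋ / 9, ⌊x⌋ % 9, by omega, by omega, by omega⟩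
  have hxO : x ∈ Om ↔ inB P1 P2 (9 * q + r) := by
    have := mem_shift_iff hx 0
    simp only [mul_zero, Int.cast_zero, sub_zero] at this
    rw [this, hqr]
  have hd : (r = 0 ∨ r = 1 ∨ r = 2 ∨ r = 5) ∨ (r = 3 ∨ r = 4 ∨ r = 6 ∨ r = 7 ∨ r = 8) := by omega
  rcases hd with hd | hd
  · have h1 : (x ∈ Om) = (∃ a ∈ A1, (a : ℤ) = q) := by
      rw [hxO, inB_X rfl hd]
      rfl
    have h2 : ∀ k : ℤ, (((9 * k : ℤ) : ℝ) ∈ {t : ℝ | x - t ∈ Om}) = (∃ a ∈ A1, (a : ℤ) = q - k) := by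
      intro k
      have : ((9 * k : ℤ) : ℝ) ∈ {t : ℝ | x - t ∈ Om} ↔ inB P1 P2 (⌊x⌋ - 9 * k) := mem_shift_iff hx k
      rw [this, inB_X (k := q - k) (r := r) (by rw [hqr]; ring) hd]
      rfl
    have h3 := W_tsum A1_nodup (by decide +kernel) check1 q
    simp only [h1, h2]
    convert h3 using 1
  · have h1 : (x ∈ Om) = (∃ a ∈ A2, (a : ℤ) = q) := by
      rw [hxO, inB_Y rfl hd]
      rfl
    have h2 : ∀ k : ℤ, (((9 * k : ℤ) : ℝ) ∈ {t : ℝ | x - t ∈ Om}) = (∃ a ∈ A2, (a : ℤ) = q - k) := by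
      intro k
      have : ((9 * k : ℤ) : ℝ) ∈ {t : ℝ | x - t ∈ Om} ↔ inB P1 P2 (⌊x⌋ - 9 * k) := mem_shift_iff hx k
      rw [this, inB_Y (k := q - k) (r := r) (by rw [hqr]; ring) hd]
      rfl
    have h3 := W_tsum A2_nodup (by decide +kernel) check2 q
    simp only [h1, h2]
    convert h3 using 1

/-- `Ω` weakly tiles its complement. -/
theorem isWeak_nu : Na99134c6.IsWeakTilingMeasure Om nu := by
  classical
  refine ⟨isBounded_Om, measurableSet_Om, nu_locallyFinite, ?_⟩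
  have hae : ∀ᵐ x ∂(volume : Measure ℝ), x ∉ Set.range (Int.cast : ℤ → ℝ) :=
    (Set.countable_range _).ae_notMem _
  filter_upwards [hae] with x hx
  have hx' : ∀ n : ℤ, (n : ℝ) ≠ x := fun n hn => hx ⟨n, hn⟩
  rw [integral_eq, nu_shift hx']
  by_cases h : x ∈ Om
  · simp [h]
  · simp [h]

end Pool.Agent.H35.WT
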